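import Mathlib
import Pool.Agent.Helper40.CX.Good2

namespace CX

/-!
# Project KP (MP_83b46e_ag), block KP-ALGC: the constants of the function field of a cubic are constant

`x` is transcendental over `K` and `y ^ 2 = x ^ 3 + A x + B`; every element of `K (x, y)` which is algebraic over `K` is in `K`.
Proof.  `y` is not in `M = K (x)` (degrees).  So `z = a + b y` with `a, b ∈ M`, and `a - b y` is a root of the same polynomials over
`K`; so `(2 b y) ^ 2 = 4 b ^ 2 (x ^ 3 + A x + B) ∈ M` is algebraic over `K`, so it is in `K`, and `b = 0` (degrees).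
-/

set_option autoImplicit false

namespace Pool.Agent.Helper15.KP

open Polynomial

/-- Degrees. -/
private theorem parity96 {K : Type*} [Field K] (A B c : K) {p q : K[X]} (hp : p ≠ 0)
    (h : p ^ 2 * (X ^ 3 + C A * X + C B) = C c * q ^ 2) : False := by
  have hF : (X ^ 3 + C A * X + C B : K[X]).natDegree = 3 := by compute_degree!
  have hF0 : (X ^ 3 + C A * X + C B : K[X]) ≠ 0 := by
    intro h0
    rw [h0, natDegree_zero] at hF
    omega
  have h1 : p ^ 2 * (X ^ 3 + C A * X + C B) ≠ 0 := mul_ne_zero (pow_ne_zero 2 hp) hF0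
  have hq : q ≠ 0 := by
    rintro rfl
    rw [h] at h1
    simp at h1
  have hc : c ≠ 0 := by
    rintro rfl
    rw [h] at h1
    simp at h1
  have h2 := congrArg natDegree h
  rw [natDegree_mul (pow_ne_zero 2 hp) hF0, natDegree_mul (C_ne_zero.2 hc) (pow_ne_zero 2 hq), natDegree_C,
    natDegree_pow, natDegree_pow, hF] at h2
  omega

/-- An algebraic element of `K (x)` is in `K`. -/
private theorem simple96 {K Ω : Type*} [Field K] [Field Ω] [Algebra K Ω] {x w : Ω} (hx : Transcendental K x)
    (hw : w ∈ IntermediateField.adjoin K {x}) (ha : IsAlgebraic K w) : w ∈ Set.range (algebraMap K Ω) := by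
  by_contra hcon
  obtain ⟨p, q, rfl⟩ := (IntermediateField.mem_adjoin_simple_iff K w).1 hw
  set w := aeval x p / aeval x q with hwd
  have hq0 : aeval x q ≠ 0 := by
    intro h0
    apply hcon
    rw [hwd, h0, div_zero]
    exact ⟨0, map_zero _⟩
  have hqne : q ≠ 0 := by
    rintro rfl
    simp at hq0
  -- `x` is algebraic over `K (w)`
  have hwI : IsIntegral K w := ha.isIntegral
  set g : IntermediateField.adjoin K {w} := ⟨w, IntermediateField.mem_adjoin_simple_self K w⟩ with hg
  have h1 : IsAlgebraic (IntermediateField.adjoin K {w}) x := by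
    refine ⟨p.map (algebraMap K _) - C g * q.map (algebraMap K _), ?_, ?_⟩
    · intro h0
      obtain ⟨i, hi⟩ : ∃ i, q.coeff i ≠ 0 := by
        by_contra h2
        push Not at h2
        exact hqne (Polynomial.ext fun i => by rw [h2 i, coeff_zero])
      have h2 := congrArg (fun P => P.coeff i) h0
      simp only [coeff_sub, coeff_C_mul, coeff_map, coeff_zero] at h2
      have h3 := congrArg (algebraMap (IntermediateField.adjoin K {w}) Ω) h2
      rw [map_sub, map_mul, map_zero, ← IsScalarTower.algebraMap_apply, ← IsScalarTower.algebraMap_apply] at h3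
      have h4 : algebraMap (IntermediateField.adjoin K {w}) Ω g = w := rfl
      rw [h4] at h3
      apply hcon
      refine ⟨p.coeff i / q.coeff i, ?_⟩
      have h5 : algebraMap K Ω (q.coeff i) ≠ 0 := by
        rw [Ne, map_eq_zero]
        exact hi
      rw [map_div₀, div_eq_iff h5]
      linear_combination h3
    · rw [map_sub, map_mul, aeval_C, aeval_map_algebraMap, aeval_map_algebraMap]
      have h4 : algebraMap (IntermediateField.adjoin K {w}) Ω g = w := rfl
      rw [h4, hwd, div_mul_cancel₀ _ hq0, sub_self]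
  have : Algebra.IsAlgebraic K (IntermediateField.adjoin K {w}) :=
    IntermediateField.isAlgebraic_adjoin_simple hwI
  exact hx (h1.restrictScalars K)

theorem mem_of_algebraic {K Ω : Type*} [Field K] [Good K] [Field Ω] [Algebra K Ω] (x y : Ω)
    (hx : Transcendental K x) (A B : K) (hy : y ^ 2 = x ^ 3 + algebraMap K Ω A * x + algebraMap K Ω B) (z : Ω)
    (hz : z ∈ IntermediateField.adjoin K {x, y}) (ha : IsAlgebraic K z) : z ∈ Set.range (algebraMap K Ω) := by
  set M := IntermediateField.adjoin K {x} with hM
  have hxM : x ∈ M := IntermediateField.mem_adjoin_simple_self K x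
  have hKM : ∀ c : K, algebraMap K Ω c ∈ M := fun c => M.algebraMap_mem c
  have hinj : Function.Injective (aeval x : K[X] →ₐ[K] Ω) := transcendental_iff_injective.1 hx
  have hF : aeval x (X ^ 3 + C A * X + C B : K[X]) = y ^ 2 := by
    rw [hy]
    simp
  have hyy : y ^ 2 ∈ M := by
    rw [hy]
    exact M.add_mem (M.add_mem (pow_mem hxM 3) (M.mul_mem (hKM A) hxM)) (hKM B)
  have hyM : y ∉ M := by
    intro h
    obtain ⟨p, q, hpq⟩ := (IntermediateField.mem_adjoin_simple_iff K y).1 h
    have hy0 : y ≠ 0 := by
      intro h0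
      have h1 : aeval x (X ^ 3 + C A * X + C B : K[X]) = aeval x (0 : K[X]) := by
        rw [hF, h0, map_zero]
        ring
      exact parity96 A B 0 (p := 1) (q := 0) one_ne_zero (by rw [hinj h1]; simp)
    have hq0 : aeval x q ≠ 0 := by
      intro h0
      rw [h0, div_zero] at hpq
      exact hy0 hpq
    have hqne : q ≠ 0 := by
      rintro rfl
      simp at hq0
    refine parity96 A B 1 hqne (q := p) (hinj ?_)
    rw [map_mul, hF, hpq, map_pow, map_mul, map_pow, C_1, map_one]
    field_simp
  -- the elements `a + b y`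
  have key : ∀ w ∈ IntermediateField.adjoin K {x, y}, ∃ a ∈ M, ∃ b ∈ M, w = a + b * y := by
    have hne : ∀ a ∈ M, ∀ b ∈ M, a + b * y ≠ 0 → a ^ 2 - b ^ 2 * y ^ 2 ≠ 0 := by
      intro a ha b hb h0 h1
      have h2 : (a + b * y) * (a - b * y) = 0 := by linear_combination h1
      have h3 := (mul_eq_zero.1 h2).resolve_left h0
      by_cases hb0 : b = 0
      · apply h0
        rw [hb0] at h3 ⊢
        linear_combination h3
      · apply hyM
        have : y = a / b := by
          rw [eq_div_iff hb0]
          linear_combination -h3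
        rw [this]
        exact M.div_mem ha hb
    let S : IntermediateField K Ω :=
      { carrier := {w | ∃ a ∈ M, ∃ b ∈ M, w = a + b * y}
        mul_mem' := by
          rintro _ _ ⟨a, ha, b, hb, rfl⟩ ⟨c, hc, d, hd, rfl⟩
          refine ⟨a * c + b * d * y ^ 2, M.add_mem (M.mul_mem ha hc) (M.mul_mem (M.mul_mem hb hd) hyy), a * d + b * c,
            M.add_mem (M.mul_mem ha hd) (M.mul_mem hb hc), by ring⟩
        add_mem' := by
          rintro _ _ ⟨a, ha, b, hb, rfl⟩ ⟨c, hc, d, hd, rfl⟩
          exact ⟨a + c, M.add_mem ha hc, b + d, M.add_mem hb hd, by ring⟩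
        algebraMap_mem' := fun c => ⟨algebraMap K Ω c, hKM c, 0, M.zero_mem, by ring⟩
        inv_mem' := by
          rintro _ ⟨a, ha, b, hb, rfl⟩
          by_cases h0 : a + b * y = 0
          · exact ⟨0, M.zero_mem, 0, M.zero_mem, by rw [h0]; simp⟩
          · have h1 := hne a ha b hb h0
            refine ⟨a / (a ^ 2 - b ^ 2 * y ^ 2), ?_, -b / (a ^ 2 - b ^ 2 * y ^ 2), ?_, ?_⟩
            · exact M.div_mem ha (M.sub_mem (pow_mem ha 2) (M.mul_mem (pow_mem hb 2) hyy))
            · exact M.div_mem (M.neg_mem hb) (M.sub_mem (pow_mem ha 2) (M.mul_mem (pow_mem hb 2) hyy))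
            · refine inv_eq_of_mul_eq_one_right ?_
              have h2 : (a + b * y) * (a / (a ^ 2 - b ^ 2 * y ^ 2) + -b / (a ^ 2 - b ^ 2 * y ^ 2) * y) =
                  (a ^ 2 - b ^ 2 * y ^ 2) / (a ^ 2 - b ^ 2 * y ^ 2) := by ring
              rw [h2, div_self h1] }
    intro w hw
    have h1 : IntermediateField.adjoin K {x, y} ≤ S := by
      rw [IntermediateField.adjoin_le_iff]
      rintro w (rfl | hw)
      · exact ⟨w, hxM, 0, M.zero_mem, by ring⟩
      · rw [Set.mem_singleton_iff] at hw
        subst hw
        exact ⟨0, M.zero_mem, 1, M.one_mem, by ring⟩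
    exact h1 hw
  obtain ⟨a, haM, b, hbM, rfl⟩ := key z hz
  -- the conjugate
  have hconj : IsAlgebraic K (a - b * y) := by
    obtain ⟨P, hP0, hP⟩ := ha
    refine ⟨P, hP0, ?_⟩
    set a' : M := ⟨a, haM⟩ with ha'
    set b' : M := ⟨b, hbM⟩ with hb'
    set e : M := ⟨y ^ 2, hyy⟩ with he
    have ea : algebraMap M Ω a' = a := rfl
    have eb : algebraMap M Ω b' = b := rfl
    have ee : algebraMap M Ω e = y ^ 2 := rfl
    have h1 : minpoly M y = X ^ 2 - C e := by
      symm
      refine minpoly.eq_of_irreducible_of_monic ?_ ?_ ?_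
      · rw [Polynomial.irreducible_iff_roots_eq_zero_of_degree_le_three]
        · rw [Multiset.eq_zero_iff_forall_notMem]
          intro r hr
          have h2 := (mem_roots'.1 hr).2
          rw [IsRoot.def, eval_sub, eval_pow, eval_X, eval_C] at h2
          have h3 := congrArg (algebraMap M Ω) h2
          rw [map_sub, map_pow, map_zero, ee] at h3
          have h4 : (algebraMap M Ω r - y) * (algebraMap M Ω r + y) = 0 := by linear_combination h3
          rcases mul_eq_zero.1 h4 with h5 | h5
          · apply hyM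
            have : y = algebraMap M Ω r := by linear_combination -h5
            rw [this]
            exact r.2
          · apply hyM
            have : y = -algebraMap M Ω r := by linear_combination h5
            rw [this]
            exact M.neg_mem r.2
        · rw [natDegree_X_pow_sub_C]
        · rw [natDegree_X_pow_sub_C]
          omega
      · rw [map_sub, map_pow, aeval_X, aeval_C, ee, sub_self]
      · exact monic_X_pow_sub_C e two_ne_zero
    have h2 : minpoly M y ∣ (P.map (algebraMap K M)).comp (C a' + C b' * X) := by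
      refine minpoly.dvd M y ?_
      rw [aeval_comp, map_add, map_mul, aeval_C, aeval_C, aeval_X, ea, eb, aeval_map_algebraMap]
      exact hP
    rw [h1] at h2
    obtain ⟨Q, hQ⟩ := h2
    have h3 : aeval (-y) ((P.map (algebraMap K M)).comp (C a' + C b' * X)) = 0 := by
      rw [hQ, map_mul, map_sub, map_pow, aeval_X, aeval_C, ee, neg_sq, sub_self, zero_mul]
    rw [aeval_comp, map_add, map_mul, aeval_C, aeval_C, aeval_X, ea, eb, aeval_map_algebraMap] at h3
    rw [show a - b * y = a + b * -y by ring]
    exact h3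
  -- `b = 0`
  have hb0 : b = 0 := by
    by_contra hb0
    have h1 : IsAlgebraic K ((a + b * y) - (a - b * y)) := ha.sub hconj
    have h2 : IsAlgebraic K (4 * b ^ 2 * y ^ 2) := by
      have h3 := h1.mul h1
      have h4 : ((a + b * y) - (a - b * y)) * ((a + b * y) - (a - b * y)) = 4 * b ^ 2 * y ^ 2 := by ring
      rwa [h4] at h3
    have h3 : 4 * b ^ 2 * y ^ 2 ∈ M := by
      refine M.mul_mem (M.mul_mem ?_ (pow_mem hbM 2)) hyy
      have := hKM 4
      rwa [map_ofNat] at this
    obtain ⟨c, hc⟩ := simple96 hx h3 h2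
    obtain ⟨p, q, hpq⟩ := (IntermediateField.mem_adjoin_simple_iff K b).1 hbM
    have hq0 : aeval x q ≠ 0 := by
      intro h0
      rw [h0, div_zero] at hpq
      exact hb0 hpq
    have hp0 : p ≠ 0 := by
      rintro rfl
      rw [map_zero, zero_div] at hpq
      exact hb0 hpq
    have h20 : (2 : K) ≠ 0 := two_ne_zero
    refine parity96 A B c (p := C 2 * p) (q := q) (mul_ne_zero (C_ne_zero.2 h20) hp0) (hinj ?_)
    rw [map_mul, hF, map_pow, map_mul, map_mul, map_pow, aeval_C, aeval_C, hc, hpq, map_ofNat]
    field_simp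
    ring
  subst hb0
  have : a + 0 * y = a := by ring
  rw [this] at ha ⊢
  exact simple96 hx haM ha

end Pool.Agent.Helper15.KP

end CX
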